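import Pool.Agent.H3.LU.BStmts

set_option autoImplicit false
set_option linter.unusedVariables false

open scoped BigOperators Manifold ContDiff Topology
open Pool.H3.L2

noncomputable section

namespace Pool.LU

/-- CN0: the first chamber is contractible -/
theorem cn0 (top : TOPStmt) (cle : CLEStmt) (pol : POLStmt) : CN0Stmt := by
  intro n V _ _ P W _ R hP
  have hT := top n V P W R hP
  have hF := pol n V P hP
  obtain ⟨x0, hx0⟩ := hF.nonempty
  have hemb := (cle n V P W R hP).1 1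
  haveI : Nonempty (Pt P) := ⟨⟨x0, hx0⟩⟩
  have hB : ∀ p ∈ Bl R 0, ∃ x, p = mk R 1 x := by
    rintro p ⟨w, x, hw, rfl⟩
    have : w = 1 := (R.len_one w).1 (by omega)
    exact ⟨x, by rw [this]⟩
  let inv : ESp R → Pt P := Function.invFun (mk R 1)
  have hinv : ∀ x, inv (mk R 1 x) = x := fun x => Function.leftInverse_invFun hemb.injective x
  let c : ℝ × Pt P → Pt P := fun q =>
    ⟨(1 - (Set.projIcc (0 : ℝ) 1 zero_le_one q.1 : ℝ)) • q.2.1 +
      ((Set.projIcc (0 : ℝ) 1 zero_le_one q.1 : ℝ)) • x0,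
      hF.convex q.2.2 hx0 (by
        have := (Set.projIcc (0 : ℝ) 1 zero_le_one q.1).2.2
        linarith) (Set.projIcc (0 : ℝ) 1 zero_le_one q.1).2.1 (by ring)⟩
  have hc : Continuous c := by
    apply Continuous.subtype_mk
    have h1 : Continuous fun q : ℝ × Pt P => ((Set.projIcc (0 : ℝ) 1 zero_le_one q.1 : Set.Icc (0:ℝ) 1) : ℝ) :=
      continuous_subtype_val.comp (continuous_projIcc.comp continuous_fst)
    exact ((continuous_const.sub h1).smul (continuous_subtype_val.comp continuous_snd)).add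
      (h1.smul continuous_const)
  refine ⟨fun s p => mk R 1 (c (s, inv p)), mk R 1 ⟨x0, hx0⟩, ?_, ?_, ?_⟩
  · have hi : ContinuousOn inv (Bl R 0) := by
      rw [hemb.isEmbedding.isInducing.continuousOn_iff]
      refine continuousOn_id.congr fun p hp => ?_
      obtain ⟨x, rfl⟩ := hB p hp
      show mk R 1 (inv (mk R 1 x)) = mk R 1 x
      rw [hinv]
    have h2 : ContinuousOn (fun p : ℝ × ESp R => ((p.1, inv p.2) : ℝ × Pt P))
        (Set.Icc 0 1 ×ˢ Bl R 0) := by
      apply ContinuousOn.prodMk continuousOn_fst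
      exact hi.comp continuousOn_snd fun p hp => hp.2
    exact ((hT.cont 1).comp hc).comp_continuousOn h2
  · intro p hp
    obtain ⟨x, rfl⟩ := hB p hp
    show mk R 1 (c (0, inv (mk R 1 x))) = mk R 1 x
    rw [hinv]
    congr 1
    apply Subtype.ext
    show (1 - (Set.projIcc (0 : ℝ) 1 zero_le_one 0 : ℝ)) • x.1 +
      ((Set.projIcc (0 : ℝ) 1 zero_le_one 0 : ℝ)) • x0 = x.1
    rw [Set.projIcc_left]
    simp
  · intro p hp
    show mk R 1 (c (1, inv p)) = mk R 1 ⟨x0, hx0⟩
    congr 1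
    apply Subtype.ext
    show (1 - (Set.projIcc (0 : ℝ) 1 zero_le_one 1 : ℝ)) • (inv p).1 +
      ((Set.projIcc (0 : ℝ) 1 zero_le_one 1 : ℝ)) • x0 = x0
    rw [Set.projIcc_right]
    simp

end Pool.LU
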