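import Pool.Agent.H3.LU.BStmts

set_option autoImplicit false
set_option linter.unusedVariables false

open scoped BigOperators Manifold ContDiff Topology
open Pool.H3.L2

noncomputable section

namespace Pool.LU

/-- COC: the action of the kernel is cocompact -/
theorem coc (top : TOPStmt) (cle : CLEStmt) (pol : POLStmt) : COCStmt := by
  intro n V _ _ P W _ R hP
  classical
  have hT := top n V P W R hP
  haveI : CompactSpace (Pt P) := isCompact_iff_compactSpace.1 hP.compact
  let u : (V → ℤˣ) → W := fun ε => if h : ∃ w, R.χ w = ε then h.choose else 1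
  have hu : ∀ w, R.χ (u (R.χ w)) = R.χ w := by
    intro w
    have h : ∃ w', R.χ w' = R.χ w := ⟨w, rfl⟩
    have h2 : u (R.χ w) = h.choose := dif_pos h
    rw [h2]
    exact h.choose_spec
  refine ⟨⋃ ε : V → ℤˣ, Set.range (mk R (u ε)),
    isCompact_iUnion fun ε => isCompact_range (hT.cont _), fun p => ?_⟩
  obtain ⟨⟨w, x⟩, rfl⟩ := Quotient.exists_rep p
  refine ⟨u (R.χ w) * w⁻¹, ?_, ?_⟩
  · rw [map_mul, map_inv, hu, mul_inv_cancel]
  · refine Set.mem_iUnion.2 ⟨R.χ w, x, ?_⟩
    show mk R (u (R.χ w)) x = mk R (u (R.χ w) * w⁻¹ * w) x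
    rw [inv_mul_cancel_right]

end Pool.LU
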