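import Pool.Agent.H3.LU.BStmts

set_option autoImplicit false
set_option linter.unusedVariables false

open scoped BigOperators Manifold ContDiff Topology
open Pool.H3.L2

noncomputable section

namespace Pool.LU

/-- EXH: every point is in the interior of a ball -/
theorem exh (top : TOPStmt) (raf : RAFStmt) (pol : POLStmt) : EXHStmt := by
  intro n V _ _ P W _ R hP p
  have hT := top n V P W R hP
  have hR := raf V P.adj W R
  have hF := pol n V P hP
  obtain ⟨⟨w, x⟩, rfl⟩ := Quotient.exists_rep p
  obtain ⟨N, hN⟩ := hR.up (P.sig x.1) (hF.clique x.1 x.2)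
  refine ⟨R.len w + N, mem_interior.2 ⟨star R w x.1, ?_, hT.star_open _ _ x.2, hT.star_mem _ _⟩⟩
  rintro q ⟨g, z, hg, -, rfl⟩
  exact ⟨w * g, z, hN w g hg, rfl⟩

end Pool.LU
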