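import Pool.Agent.H3.LU.BStmts

set_option autoImplicit false
set_option linter.unusedVariables false

open scoped BigOperators Manifold ContDiff Topology
open Pool.H3.L2

noncomputable section

namespace Pool.LU

/-- FRE: the action of the kernel of the sign homomorphism is free -/
theorem fre (top : TOPStmt) (raf : RAFStmt) (pol : POLStmt) : FREStmt := by
  intro n V _ _ P W _ R hP g p hg hp
  have hT := top n V P W R hP
  have hR := raf V P.adj W R
  have hF := pol n V P hP
  obtain ⟨⟨w, x⟩, rfl⟩ := Quotient.exists_rep p
  have h1 : mk R (g * w) x = mk R w x := hp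
  have h2 := ((hT.eq _ _ _ _).1 h1).2
  have h3 : R.χ ((g * w)⁻¹ * w) = 1 := by
    rw [mul_inv_rev, map_mul, map_mul, map_inv, map_inv, hg]
    simp
  have h4 := hR.inj (P.sig x.1) (hF.clique x.1 x.2) _ h2 h3
  have h5 : g * w = w := by
    rw [inv_mul_eq_one] at h4
    exact h4
  simpa using h5

end Pool.LU
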