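import Pool.Agent.H3.LU.BStmts

set_option autoImplicit false
set_option linter.unusedVariables false

open scoped BigOperators Manifold ContDiff Topology
open Pool.H3.L2

noncomputable section

namespace Pool.LU

theorem HAU_det {n : ℕ} {V : Type} (P : SPoly n V) (hP : P.Good) (x x' : Fin n → ℝ)
    (hx : x ∈ P.cham) (h : ∀ v, P.l v x = P.l v x') : x = x' := by
  by_contra hne
  obtain ⟨C, hC⟩ := hP.compact.isBounded.exists_norm_le
  set d := x' - x with hd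
  have hd0 : d ≠ 0 := sub_ne_zero.2 (Ne.symm hne)
  have hdn : 0 < ‖d‖ := norm_pos_iff.2 hd0
  have hmem : ∀ t : ℝ, x + t • d ∈ P.cham := by
    intro t v
    have h1 : P.l v (x + t • d) = P.l v x := by
      have h2 : P.a v d = 0 := by
        have := h v
        unfold SPoly.l at this
        rw [hd, map_sub]
        linarith
      unfold SPoly.l
      rw [map_add, map_smul, h2]
      simp
    rw [h1]
    exact hx v
  have h3 := hC _ (hmem ((C + 1 + ‖x‖) / ‖d‖))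
  have h0 := hC _ hx
  have h0' := norm_nonneg x
  have h4 : ‖((C + 1 + ‖x‖) / ‖d‖) • d‖ = C + 1 + ‖x‖ := by
    rw [norm_smul, Real.norm_eq_abs, abs_of_nonneg (div_nonneg (by linarith) hdn.le),
      div_mul_cancel₀ _ hdn.ne']
  have h5 : ‖((C + 1 + ‖x‖) / ‖d‖) • d‖ ≤ ‖x + ((C + 1 + ‖x‖) / ‖d‖) • d‖ + ‖x‖ := by
    have := norm_sub_le (x + ((C + 1 + ‖x‖) / ‖d‖) • d) x
    rwa [add_sub_cancel_left] at this
  linarith

/-- HAU: the space is Hausdorff -/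
theorem hau (top : TOPStmt) (prj : PRJStmt) (raf : RAFStmt) (pol : POLStmt) : HAUStmt := by
  intro n V _ _ P W _ R hP
  have hT := top n V P W R hP
  have hR := raf V P.adj W R
  have hF := pol n V P hP
  obtain ⟨π, hπ, hπc, -⟩ := prj n V P W R hP
  refine ⟨fun p q hpq => ?_⟩
  by_cases hne : π p = π q
  swap
  · exact separated_by_continuous hπc hne
  obtain ⟨⟨w, x⟩, rfl⟩ := Quotient.exists_rep p
  obtain ⟨⟨w', x'⟩, rfl⟩ := Quotient.exists_rep q
  change mk R w x ≠ mk R w' x' at hpq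
  change π (mk R w x) = π (mk R w' x') at hne
  change ∃ u v : Set (ESp R), IsOpen u ∧ IsOpen v ∧ mk R w x ∈ u ∧ mk R w' x' ∈ v ∧ Disjoint u v
  have hv : ∀ v, ((R.χ w v : ℤ) : ℝ) * Real.sqrt (P.l v x.1) =
      ((R.χ w' v : ℤ) : ℝ) * Real.sqrt (P.l v x'.1) := by
    intro v
    rw [← hπ w x v, ← hπ w' x' v, hne]
  have hu : ∀ ε : ℤˣ, ((ε : ℤ) : ℝ) ^ 2 = 1 := by
    intro ε
    rcases Int.units_eq_one_or ε with h | h <;> simp [h]
  have hl : ∀ v, P.l v x.1 = P.l v x'.1 := by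
    intro v
    have h1 : (((R.χ w v : ℤ) : ℝ) * Real.sqrt (P.l v x.1)) ^ 2 =
        (((R.χ w' v : ℤ) : ℝ) * Real.sqrt (P.l v x'.1)) ^ 2 := by rw [hv v]
    rw [mul_pow, mul_pow, hu, hu, one_mul, one_mul, Real.sq_sqrt (x.2 v), Real.sq_sqrt (x'.2 v)] at h1
    exact h1
  have hxx : x = x' := Subtype.ext (HAU_det P hP x.1 x'.1 x.2 hl)
  subst hxx
  have hχ : ∀ v, v ∉ P.sig x.1 → R.χ (w⁻¹ * w') v = 1 := by
    intro v hvs
    have h1 : 0 < P.l v x.1 := lt_of_le_of_ne (x.2 v) (Ne.symm hvs)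
    have h2 := hv v
    have h3 : ((R.χ w v : ℤ) : ℝ) = ((R.χ w' v : ℤ) : ℝ) :=
      mul_right_cancel₀ (Real.sqrt_pos.2 h1).ne' h2
    have h4 : R.χ w v = R.χ w' v := Units.ext (by exact_mod_cast h3)
    have h5 : R.χ (w⁻¹ * w') v = (R.χ w v)⁻¹ * R.χ w' v := by
      rw [map_mul, map_inv]; rfl
    rw [h5, h4, inv_mul_cancel]
  obtain ⟨g, hg, hgχ⟩ := hR.ex (P.sig x.1) (R.χ (w⁻¹ * w')) hχ
  have hp : mk R w x = mk R (w * g) x := (hT.eq _ _ _ _).2 ⟨rfl, by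
    rw [inv_mul_cancel_left]
    exact hg⟩
  refine ⟨star R (w * g) x.1, star R w' x.1, hT.star_open _ _ x.2, hT.star_open _ _ x.2, ?_,
    hT.star_mem _ _, ?_⟩
  · rw [hp]
    exact hT.star_mem _ _
  · rw [Set.disjoint_left]
    intro r hr1 hr2
    obtain ⟨⟨u, z⟩, rfl⟩ := Quotient.exists_rep r
    have h1 := ((hT.star_cham (w * g) u x.1 z x.2).1 hr1).2
    have h2 := ((hT.star_cham w' u x.1 z x.2).1 hr2).2
    have h3 : (w * g)⁻¹ * w' ∈ stab R x.1 := by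
      have h6 := mul_mem h1 (inv_mem h2)
      have h7 : (w * g)⁻¹ * u * (w'⁻¹ * u)⁻¹ = (w * g)⁻¹ * w' := by group
      rwa [h7] at h6
    have h4 : R.χ ((w * g)⁻¹ * w') = 1 := by
      rw [mul_inv_rev, mul_assoc, map_mul, map_inv, hgχ, inv_mul_cancel]
    have h5 := hR.inj (P.sig x.1) (hF.clique x.1 x.2) _ h3 h4
    apply hpq
    rw [hp, inv_mul_eq_one.1 h5]

end Pool.LU
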