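import Pool.Agent.H3.LU.BStmts

set_option autoImplicit false
set_option linter.unusedVariables false

open scoped BigOperators Manifold ContDiff Topology
open Pool.H3.L2

noncomputable section

namespace Pool.LU

theorem PRJ_cont {n : ℕ} {V : Type} (P : SPoly n V) (v : V) : Continuous (P.l v) := by
  unfold SPoly.l
  exact ((P.a v).continuous_of_finiteDimensional).add continuous_const

/-- PRJ: the projection to the coordinates -/
theorem prj (top : TOPStmt) (raf : RAFStmt) : PRJStmt := by
  intro n V _ _ P W _ R hP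
  have hT := top n V P W R hP
  have hR := raf V P.adj W R
  let f : W × Pt P → V → ℝ := fun p v => ((R.χ p.1 v : ℤ) : ℝ) * Real.sqrt (P.l v p.2.1)
  have hf : ∀ p q : W × Pt P, (glue R).r p q → f p = f q := by
    rintro ⟨w, x⟩ ⟨w', x'⟩ ⟨h1, h2⟩
    have h1' : x = x' := h1
    subst h1'
    funext v
    show ((R.χ w v : ℤ) : ℝ) * Real.sqrt (P.l v x.1) = ((R.χ w' v : ℤ) : ℝ) * Real.sqrt (P.l v x.1)
    by_cases hv : v ∈ P.sig x.1
    · have : P.l v x.1 = 0 := hv
      rw [this, Real.sqrt_zero, mul_zero, mul_zero]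
    · have h3 := hR.supp (P.sig x.1) v hv _ h2
      have h4 : R.χ w' v = R.χ w v := by
        have h5 : R.χ (w⁻¹ * w') v = (R.χ w v)⁻¹ * R.χ w' v := by
          rw [map_mul, map_inv]; rfl
        rw [h5, inv_mul_eq_one] at h3
        exact h3.symm
      rw [h4]
  let π : ESp R → V → ℝ := Quotient.lift f hf
  have hπ : IsPi R π := fun w x v => rfl
  refine ⟨π, hπ, ?_, ?_⟩
  · apply hT.dom
    intro w
    have : (π ∘ mk R w) = fun (x : Pt P) v => ((R.χ w v : ℤ) : ℝ) * Real.sqrt (P.l v x.1) := rfl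
    rw [this]
    refine continuous_pi fun v => continuous_const.mul ?_
    exact Real.continuous_sqrt.comp ((PRJ_cont P v).comp continuous_subtype_val)
  · intro g p v
    obtain ⟨⟨w, x⟩, rfl⟩ := Quotient.exists_rep p
    show ((R.χ (g * w) v : ℤ) : ℝ) * Real.sqrt (P.l v x.1) =
      ((R.χ g v : ℤ) : ℝ) * (((R.χ w v : ℤ) : ℝ) * Real.sqrt (P.l v x.1))
    rw [map_mul, Pi.mul_apply]
    push_cast
    ring

end Pool.LU
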