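import Pool.Agent.H3.LU.BStmts

set_option autoImplicit false
set_option linter.unusedVariables false

open scoped BigOperators Manifold ContDiff Topology
open Pool.H3.L2

noncomputable section

namespace Pool.LU

/-- SCT: the space is second countable -/
theorem sct (mfd : MFDStmt) (top : TOPStmt) (raf : RAFStmt) : SCTStmt := by
  intro n V _ _ P W _ R hP
  have hT := top n V P W R hP
  obtain ⟨cs, -, -⟩ := mfd n V P W R hP
  haveI : Countable W := (raf V P.adj W R).countable
  haveI : CompactSpace (Pt P) := isCompact_iff_compactSpace.1 hP.compact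
  haveI : SigmaCompactSpace (ESp R) := by
    rw [← isSigmaCompact_univ_iff]
    have h1 : (Set.univ : Set (ESp R)) = ⋃ w : W, Set.range (mk R w) := by
      symm
      rw [Set.eq_univ_iff_forall]
      intro p
      obtain ⟨⟨w, x⟩, rfl⟩ := Quotient.exists_rep p
      exact Set.mem_iUnion.2 ⟨w, x, rfl⟩
    rw [h1]
    exact isSigmaCompact_iUnion_of_isCompact _ fun w => isCompact_range (hT.cont w)
  exact ChartedSpace.secondCountable_of_sigmaCompact (Fin n → ℝ) (ESp R)

end Pool.LU
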