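import Pool.Agent.H72.LU.CHB

/-!
Project LU, part C, module SEQ: the long exact sequence for adding a vertex to a full subcomplex.
-/

set_option autoImplicit false

open scoped BigOperators

noncomputable section

namespace Pool.LU

/-! ### linear algebra: two anticommuting involutions -/

/-- A subspace which is stable under an involution `r` and an involution `m` which anticommute has
twice the dimension of its part on which `r = -1`. -/
theorem SEQ_half (F : Type) [Field F] (h2 : (2 : F) ≠ 0) (E : Type) [AddCommGroup E] [Module F E]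
    [FiniteDimensional F E] (r m : E →ₗ[F] E) (hr : ∀ x, r (r x) = x) (hm : ∀ x, m (m x) = x)
    (hrm : ∀ x, r (m x) = - m (r x)) (Z : Submodule F E) (hZr : ∀ x ∈ Z, r x ∈ Z)
    (hZm : ∀ x ∈ Z, m x ∈ Z) (Z' : Submodule F E) (hZ' : ∀ x, x ∈ Z' ↔ x ∈ Z ∧ r x = - x) :
    Module.finrank F ↥Z = 2 * Module.finrank F ↥Z' := by
  have e : ↥Z ≃ₗ[F] (↥Z' × ↥Z') :=
    { toFun := fun z => (⟨(z : E) - r z, by
          rw [hZ']
          refine ⟨Z.sub_mem z.2 (hZr _ z.2), ?_⟩
          rw [map_sub, hr]; abel⟩,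
        ⟨m ((z : E) + r z), by
          rw [hZ']
          refine ⟨hZm _ (Z.add_mem z.2 (hZr _ z.2)), ?_⟩
          rw [hrm, map_add r, hr, add_comm]⟩)
      map_add' := by
        intro a b
        refine Prod.ext (Subtype.ext ?_) (Subtype.ext ?_)
        · show ((a : E) + b) - r ((a : E) + b) = ((a : E) - r a) + ((b : E) - r b)
          rw [map_add]; abel
        · show m (((a : E) + b) + r ((a : E) + b)) = m ((a : E) + r a) + m ((b : E) + r b)
          simp only [map_add]; abel
      map_smul' := by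
        intro c a
        refine Prod.ext (Subtype.ext ?_) (Subtype.ext ?_)
        · show (c • (a : E)) - r (c • (a : E)) = c • ((a : E) - r a)
          rw [map_smul, smul_sub]
        · show m ((c • (a : E)) + r (c • (a : E))) = c • m ((a : E) + r a)
          simp only [map_add, map_smul, smul_add]
      invFun := fun p => ⟨(2 : F)⁻¹ • ((p.1 : E) + m p.2),
        Z.smul_mem _ (Z.add_mem ((hZ' _).1 p.1.2).1 (hZm _ ((hZ' _).1 p.2.2).1))⟩
      left_inv := by
        intro z
        refine Subtype.ext ?_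
        show (2 : F)⁻¹ • (((z : E) - r z) + m (m ((z : E) + r z))) = z
        rw [hm]
        have : ((z : E) - r z) + ((z : E) + r z) = (2 : F) • (z : E) := by
          rw [two_smul]; abel
        rw [this, smul_smul, inv_mul_cancel₀ h2, one_smul]
      right_inv := by
        rintro ⟨a, b⟩
        have ha := ((hZ' _).1 a.2).2
        have hb := ((hZ' _).1 b.2).2
        have hrmb : r (m (b : E)) = m (b : E) := by
          rw [hrm, hb, map_neg, neg_neg]
        refine Prod.ext (Subtype.ext ?_) (Subtype.ext ?_)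
        · show (2 : F)⁻¹ • ((a : E) + m b) - r ((2 : F)⁻¹ • ((a : E) + m b)) = a
          rw [map_smul, map_add, ha, hrmb, ← smul_sub]
          have : (a : E) + m b - (-(a : E) + m b) = (2 : F) • (a : E) := by
            rw [two_smul]; abel
          rw [this, smul_smul, inv_mul_cancel₀ h2, one_smul]
        · show m ((2 : F)⁻¹ • ((a : E) + m b) + r ((2 : F)⁻¹ • ((a : E) + m b))) = b
          rw [map_smul, map_add r, ha, hrmb, ← smul_add]
          have : (a : E) + m b + (-(a : E) + m b) = (2 : F) • m (b : E) := by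
            rw [two_smul]; abel
          rw [this, smul_smul, inv_mul_cancel₀ h2, one_smul, hm] }
  rw [e.finrank_eq, Module.finrank_prod, two_mul]

/-! ### the maps -/

section maps

variable (F : Type) [CommRing F] {V : Type} [Fintype V] [DecidableEq V] (o : V → ℕ) (X : Type)

/-- the projection to the quotient complex -/
def SEQ_f (v : V) : (Finset V → X → F) →ₗ[F] (Finset V → X → F) where
  toFun x := fun τ y => if v ∈ τ then 0 else (sg o v τ : F) * x (insert v τ) y
  map_add' x x' := by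
    funext τ y
    show (if v ∈ τ then 0 else (sg o v τ : F) * (x (insert v τ) y + x' (insert v τ) y)) =
      (if v ∈ τ then 0 else (sg o v τ : F) * x (insert v τ) y) +
      (if v ∈ τ then 0 else (sg o v τ : F) * x' (insert v τ) y)
    split_ifs
    · rw [add_zero]
    · ring
  map_smul' c x := by
    funext τ y
    show (if v ∈ τ then 0 else (sg o v τ : F) * (c * x (insert v τ) y)) =
      c * (if v ∈ τ then 0 else (sg o v τ : F) * x (insert v τ) y)
    split_ifs
    · rw [mul_zero]
    · ring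

theorem SEQ_f_apply (v : V) (x : Finset V → X → F) (τ : Finset V) (y : X) :
    SEQ_f F o X v x τ y = if v ∈ τ then 0 else (sg o v τ : F) * x (insert v τ) y := rfl

/-- the action of an involution on chains -/
def SEQ_r (ρ : X → X) : (Finset V → X → F) →ₗ[F] (Finset V → X → F) where
  toFun x := fun τ y => x τ (ρ y)
  map_add' x x' := rfl
  map_smul' c x := rfl

/-- multiplication by a sign -/
def SEQ_m (χ : X → ℤˣ) : (Finset V → X → F) →ₗ[F] (Finset V → X → F) where
  toFun x := fun τ y => (((χ y : ℤˣ) : ℤ) : F) * x τ y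
  map_add' x x' := by
    funext τ y
    show (((χ y : ℤˣ) : ℤ) : F) * (x τ y + x' τ y) = _
    rw [mul_add]; rfl
  map_smul' c x := by
    funext τ y
    show (((χ y : ℤˣ) : ℤ) : F) * (c * x τ y) = c * ((((χ y : ℤˣ) : ℤ) : F) * x τ y)
    ring

theorem SEQ_sgsq (v : V) (τ : Finset V) : ((sg o v τ : ℤ) : F) * ((sg o v τ : ℤ) : F) = 1 := by
  have h : sg o v τ * sg o v τ = 1 := by
    unfold sg
    rw [← mul_pow]; norm_num
  exact_mod_cast congrArg (fun z : ℤ => (z : F)) h

theorem SEQ_bd_f (ho : Function.Injective o) (v : V) (x : Finset V → X → F) :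
    bd F o X (SEQ_f F o X v x) = - SEQ_f F o X v (bd F o X x) := by
  funext τ y
  show bd F o X (SEQ_f F o X v x) τ y = - SEQ_f F o X v (bd F o X x) τ y
  rw [bd_apply, SEQ_f_apply]
  by_cases hv : v ∈ τ
  · rw [if_pos hv, neg_zero]
    refine Finset.sum_eq_zero fun u _ => ?_
    rw [SEQ_f_apply, if_pos (Finset.mem_insert_of_mem hv), mul_zero]
  · rw [if_neg hv, bd_apply, Finset.mul_sum, ← Finset.sum_neg_distrib]
    have hsub : Finset.univ \ insert v τ ⊆ Finset.univ \ τ :=
      Finset.sdiff_subset_sdiff (Finset.Subset.refl _) (Finset.subset_insert _ _)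
    rw [← Finset.sum_subset hsub]
    · refine Finset.sum_congr rfl fun u hu => ?_
      simp only [Finset.mem_sdiff, Finset.mem_univ, true_and, Finset.mem_insert, not_or] at hu
      rw [SEQ_f_apply, if_neg (by
        rw [Finset.mem_insert, not_or]; exact ⟨fun h => hu.1 h.symm, hv⟩)]
      have h1 := sg_swap o ho u v hu.1 τ hu.2 hv
      have h3 : ((sg o v τ : ℤ) : F) * ((sg o u (insert v τ) : ℤ) : F) =
          - (((sg o u τ : ℤ) : F) * ((sg o v (insert u τ) : ℤ) : F)) := by
        exact_mod_cast congrArg (fun z : ℤ => (z : F)) h1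
      rw [Finset.insert_comm u v τ, ← mul_assoc, ← mul_assoc, h3]
      ring
    · intro u hu hu'
      simp only [Finset.mem_sdiff, Finset.mem_univ, true_and, Finset.mem_insert, not_or,
        not_and, not_not] at hu hu'
      have huv : u = v := by
        by_contra h
        exact hu (hu' h)
      rw [SEQ_f_apply, huv, if_pos (Finset.mem_insert_self _ _), mul_zero]

theorem SEQ_bd_r (ρ : X → X) (x : Finset V → X → F) :
    bd F o X (SEQ_r F X ρ x) = SEQ_r F X ρ (bd F o X x) := rfl

theorem SEQ_bd_m (χ : X → ℤˣ) (x : Finset V → X → F) :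
    bd F o X (SEQ_m F X χ x) = SEQ_m F X χ (bd F o X x) := by
  funext τ y
  show bd F o X (SEQ_m F X χ x) τ y = (((χ y : ℤˣ) : ℤ) : F) * bd F o X x τ y
  rw [bd_apply, bd_apply, Finset.mul_sum]
  refine Finset.sum_congr rfl fun u _ => ?_
  show _ * ((((χ y : ℤˣ) : ℤ) : F) * x (insert u τ) y) = _
  ring

/-- the chains of degree zero are cycles -/
theorem SEQ_bd_zero {adj : V → V → Prop} {ρ : V → X → X} {A : Set V} (x : Finset V → X → F)
    (hx : x ∈ Ch F adj ρ A 0) : bd F o X x = 0 := by
  funext τ y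
  rw [bd_apply]
  show _ = (0 : F)
  refine Finset.sum_eq_zero fun u _ => ?_
  have : x (insert u τ) = 0 := by
    by_contra h
    have h1 := (hx.1 _ h).1
    rw [Finset.card_eq_zero] at h1
    exact Finset.insert_ne_empty _ _ h1
  rw [this]
  simp

end maps

/-- the quotient complex -/
def SEQ_U (F : Type) [CommRing F] {V : Type} [Fintype V] [DecidableEq V] {X : Type}
    (adj : V → V → Prop) (ρ : V → X → X) (B : Set V) (v : V) (k : ℕ) :
    Submodule F (Finset V → X → F) where
  carrier := {x | x ∈ Ch F adj ρ B k ∧ SEQ_r F X (ρ v) x = - x}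
  add_mem' := by
    rintro x x' ⟨h1, h2⟩ ⟨h1', h2'⟩
    refine ⟨Submodule.add_mem _ h1 h1', ?_⟩
    rw [map_add, h2, h2', neg_add]
  zero_mem' := ⟨Submodule.zero_mem _, by rw [map_zero, neg_zero]⟩
  smul_mem' := by
    rintro c x ⟨h1, h2⟩
    refine ⟨Submodule.smul_mem _ _ h1, ?_⟩
    rw [map_smul, h2, smul_neg]

theorem SEQ_mem_U (F : Type) [CommRing F] {V : Type} [Fintype V] [DecidableEq V] {X : Type}
    (adj : V → V → Prop) (ρ : V → X → X) (B : Set V) (v : V) (k : ℕ) (x : Finset V → X → F) :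
    x ∈ SEQ_U F adj ρ B v k ↔ x ∈ Ch F adj ρ B k ∧ SEQ_r F X (ρ v) x = - x := Iff.rfl

theorem SEQ_r_mem (F : Type) [CommRing F] {V : Type} [Fintype V] [DecidableEq V]
    {adj : V → V → Prop} (X : XSet V adj) (A : Set V) (v : V) (k : ℕ)
    (x : Finset V → X.X → F) (hx : x ∈ Ch F adj X.ρ (A ∩ Lk adj v) k) :
    SEQ_r F X.X (X.ρ v) x ∈ Ch F adj X.ρ (A ∩ Lk adj v) k := by
  obtain ⟨h1, h2⟩ := hx
  refine ⟨fun σ hσ => h1 σ fun h => hσ ?_, fun σ u hu y => ?_⟩
  · funext y
    show x σ (X.ρ v y) = 0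
    rw [h]; rfl
  · show x σ (X.ρ v (X.ρ u y)) = - x σ (X.ρ v y)
    by_cases hx0 : x σ = 0
    · rw [hx0]; simp
    · have hu' : u ∈ A ∩ Lk adj v := (h1 σ hx0).2.1 u hu
      have hadj : adj u v := hu'.2.2
      rw [← X.comm u v hadj y, h2 σ u hu]

theorem SEQ_m_mem (F : Type) [CommRing F] {V : Type} [Fintype V] [DecidableEq V]
    {adj : V → V → Prop} (X : XSet V adj) (A : Set V) (v : V) (k : ℕ)
    (x : Finset V → X.X → F) (hx : x ∈ Ch F adj X.ρ (A ∩ Lk adj v) k) :
    SEQ_m F X.X (X.χ v) x ∈ Ch F adj X.ρ (A ∩ Lk adj v) k := by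
  obtain ⟨h1, h2⟩ := hx
  refine ⟨fun σ hσ => h1 σ fun h => hσ ?_, fun σ u hu y => ?_⟩
  · funext y
    show (((X.χ v y : ℤˣ) : ℤ) : F) * x σ y = 0
    rw [h]; simp
  · show (((X.χ v (X.ρ u y) : ℤˣ) : ℤ) : F) * x σ (X.ρ u y) =
      - ((((X.χ v y : ℤˣ) : ℤ) : F) * x σ y)
    by_cases hx0 : x σ = 0
    · rw [hx0]; simp
    · have hu' : u ∈ A ∩ Lk adj v := (h1 σ hx0).2.1 u hu
      have huv : v ≠ u := fun h => hu'.2.1 h.symm
      rw [X.χ_ne v u huv y, h2 σ u hu]
      ring

theorem SEQ_rr (F : Type) [CommRing F] {V : Type} [Fintype V] [DecidableEq V]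
    {adj : V → V → Prop} (X : XSet V adj) (v : V) (x : Finset V → X.X → F) :
    SEQ_r F X.X (X.ρ v) (SEQ_r F X.X (X.ρ v) x) = x := by
  funext σ y
  show x σ (X.ρ v (X.ρ v y)) = x σ y
  rw [X.ρρ]

theorem SEQ_mm (F : Type) [CommRing F] {V : Type} [Fintype V] [DecidableEq V]
    {adj : V → V → Prop} (X : XSet V adj) (v : V) (x : Finset V → X.X → F) :
    SEQ_m F X.X (X.χ v) (SEQ_m F X.X (X.χ v) x) = x := by
  funext σ y
  show (((X.χ v y : ℤˣ) : ℤ) : F) * ((((X.χ v y : ℤˣ) : ℤ) : F) * x σ y) = x σ y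
  rcases Int.units_eq_one_or (X.χ v y) with h | h <;> rw [h] <;> simp

theorem SEQ_rm (F : Type) [CommRing F] {V : Type} [Fintype V] [DecidableEq V]
    {adj : V → V → Prop} (X : XSet V adj) (v : V) (x : Finset V → X.X → F) :
    SEQ_r F X.X (X.ρ v) (SEQ_m F X.X (X.χ v) x) = - SEQ_m F X.X (X.χ v) (SEQ_r F X.X (X.ρ v) x) := by
  funext σ y
  show (((X.χ v (X.ρ v y) : ℤˣ) : ℤ) : F) * x σ (X.ρ v y) =
    - ((((X.χ v y : ℤˣ) : ℤ) : F) * x σ (X.ρ v y))
  rw [X.χ_self]
  push_cast
  ring

/-- the homology of the quotient complex has half the dimension of the homology of the link -/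
theorem SEQ_two (F : Type) [Field F] (h2 : (2 : F) ≠ 0) {V : Type} [Fintype V] [DecidableEq V]
    {adj : V → V → Prop} (X : XSet V adj) (o : V → ℕ) (A : Set V) (v : V) (k : ℕ) :
    hh F o X (A ∩ Lk adj v) k =
      2 * (Module.finrank F ↥(SEQ_U F adj X.ρ (A ∩ Lk adj v) v k ⊓ LinearMap.ker (bd F o X.X)) -
        Module.finrank F ↥((SEQ_U F adj X.ρ (A ∩ Lk adj v) v (k + 1)).map (bd F o X.X))) := by
  have hc : Module.finrank F ↥(Ch F adj X.ρ (A ∩ Lk adj v) k ⊓ LinearMap.ker (bd F o X.X)) =
      2 * Module.finrank F ↥(SEQ_U F adj X.ρ (A ∩ Lk adj v) v k ⊓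
        LinearMap.ker (bd F o X.X)) := by
    refine SEQ_half F h2 _ (SEQ_r F X.X (X.ρ v)) (SEQ_m F X.X (X.χ v)) (SEQ_rr F X v)
      (SEQ_mm F X v) (SEQ_rm F X v) _ ?_ ?_ _ ?_
    · rintro x ⟨hx1, hx2⟩
      refine ⟨SEQ_r_mem F X A v k x hx1, ?_⟩
      rw [SetLike.mem_coe, LinearMap.mem_ker] at hx2 ⊢
      rw [SEQ_bd_r, hx2, map_zero]
    · rintro x ⟨hx1, hx2⟩
      refine ⟨SEQ_m_mem F X A v k x hx1, ?_⟩
      rw [SetLike.mem_coe, LinearMap.mem_ker] at hx2 ⊢
      rw [SEQ_bd_m, hx2, map_zero]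
    · intro x
      rw [Submodule.mem_inf, Submodule.mem_inf, SEQ_mem_U]
      tauto
  have hb : Module.finrank F ↥((Ch F adj X.ρ (A ∩ Lk adj v) (k + 1)).map (bd F o X.X)) =
      2 * Module.finrank F ↥((SEQ_U F adj X.ρ (A ∩ Lk adj v) v (k + 1)).map (bd F o X.X)) := by
    refine SEQ_half F h2 _ (SEQ_r F X.X (X.ρ v)) (SEQ_m F X.X (X.χ v)) (SEQ_rr F X v)
      (SEQ_mm F X v) (SEQ_rm F X v) _ ?_ ?_ _ ?_
    · rintro _ ⟨x, hx, rfl⟩
      exact ⟨_, SEQ_r_mem F X A v _ x hx, SEQ_bd_r F o X.X (X.ρ v) x⟩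
    · rintro _ ⟨x, hx, rfl⟩
      exact ⟨_, SEQ_m_mem F X A v _ x hx, SEQ_bd_m F o X.X (X.χ v) x⟩
    · intro z
      constructor
      · rintro ⟨x, ⟨hx1, hx2⟩, rfl⟩
        refine ⟨⟨x, hx1, rfl⟩, ?_⟩
        rw [← SEQ_bd_r, hx2, map_neg]
      · rintro ⟨⟨x, hx, rfl⟩, hz⟩
        refine ⟨(2 : F)⁻¹ • (x - SEQ_r F X.X (X.ρ v) x), ⟨?_, ?_⟩, ?_⟩
        · exact Submodule.smul_mem _ _ (Submodule.sub_mem _ hx (SEQ_r_mem F X A v _ x hx))
        · rw [map_smul, map_sub, SEQ_rr, ← smul_neg, neg_sub]
        · rw [map_smul, map_sub, SEQ_bd_r, hz, sub_neg_eq_add, ← two_smul F, smul_smul,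
            inv_mul_cancel₀ h2, one_smul]
  unfold hh
  rw [hc, hb, Nat.mul_sub]

theorem seq (chb : CHBStmt) (les : LESStmt) : SEQStmt := by
  intro F _ h2 V _ _ adj hsym X o ho A v hvA k
  have hX : FiniteDimensional F (Finset V → X.X → F) := inferInstance
  obtain ⟨hdd, hmap⟩ := chb F V adj o ho X.X X.ρ
  have key := les F (Finset V → X.X → F) (Finset V → X.X → F) (bd F o X.X) (bd F o X.X)
    (SEQ_f F o X.X v) (Ch F adj X.ρ (insert v A)) (Ch F adj X.ρ A)
    (SEQ_U F adj X.ρ (A ∩ Lk adj v) v) hdd hdd (SEQ_bd_f F o X.X ho v)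
    (hmap (insert v A)) (hmap A)
    (by
      rintro k _ ⟨x, ⟨hx1, hx2⟩, rfl⟩
      refine ⟨hmap _ k ⟨x, hx1, rfl⟩, ?_⟩
      rw [← SEQ_bd_r, hx2, map_neg])
    (by
      rintro k x ⟨hx1, hx2⟩
      exact ⟨fun σ hσ => ⟨(hx1 σ hσ).1, fun u hu => Or.inr ((hx1 σ hσ).2.1 u hu),
        (hx1 σ hσ).2.2⟩, hx2⟩)
    (by
      intro k
      apply le_antisymm
      · rintro x ⟨⟨hx1, hx2⟩, hx3⟩
        refine ⟨fun σ hσ => ⟨(hx1 σ hσ).1, fun u hu => ?_, (hx1 σ hσ).2.2⟩, hx2⟩
        rcases (hx1 σ hσ).2.1 u hu with h | h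
        · exfalso
          apply hσ
          subst h
          have h4 : SEQ_f F o X.X u x (σ.erase u) = 0 := by
            rw [LinearMap.mem_ker.1 hx3]; rfl
          funext y
          have h5 := congrFun h4 y
          rw [SEQ_f_apply, if_neg (Finset.notMem_erase _ _), Finset.insert_erase hu] at h5
          have h6 := SEQ_sgsq F o u (σ.erase u)
          have h7 : x σ y = ((sg o u (σ.erase u) : ℤ) : F) *
              (((sg o u (σ.erase u) : ℤ) : F) * x σ y) := by
            rw [← mul_assoc, h6, one_mul]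
          rw [h7, h5]
          simp
        · exact h
      · rintro x hx
        refine ⟨⟨fun σ hσ => ⟨(hx.1 σ hσ).1, fun u hu => Or.inr ((hx.1 σ hσ).2.1 u hu),
          (hx.1 σ hσ).2.2⟩, hx.2⟩, ?_⟩
        rw [SetLike.mem_coe, LinearMap.mem_ker]
        funext τ y
        rw [SEQ_f_apply]
        split_ifs with hv
        · rfl
        · have : x (insert v τ) = 0 := by
            by_contra h
            exact hvA ((hx.1 _ h).2.1 v (Finset.mem_insert_self _ _))
          rw [this]
          simp)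
    (by
      intro k
      apply le_antisymm
      · rintro _ ⟨x, ⟨hx1, hx2⟩, rfl⟩
        refine ⟨⟨fun τ hτ => ?_, fun τ u hu y => ?_⟩, ?_⟩
        · have hvτ : v ∉ τ := by
            intro h
            apply hτ
            funext y
            rw [SEQ_f_apply, if_pos h]; rfl
          have h3 : x (insert v τ) ≠ 0 := by
            intro h
            apply hτ
            funext y
            rw [SEQ_f_apply, if_neg hvτ, h]
            simp
          obtain ⟨h4, h5, h6⟩ := hx1 _ h3
          refine ⟨?_, fun u hu => ⟨?_, ?_, ?_⟩, fun a ha b hb hab =>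
            h6 a (Finset.mem_insert_of_mem ha) b (Finset.mem_insert_of_mem hb) hab⟩
          · rw [Finset.card_insert_of_notMem hvτ] at h4
            omega
          · rcases h5 u (Finset.mem_insert_of_mem hu) with h | h
            · rw [h] at hu; exact absurd hu hvτ
            · exact h
          · rintro rfl; exact hvτ hu
          · exact h6 u (Finset.mem_insert_of_mem hu) v (Finset.mem_insert_self _ _)
              (by rintro rfl; exact hvτ hu)
        · rw [SEQ_f_apply, SEQ_f_apply]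
          split_ifs with h
          · rw [neg_zero]
          · rw [hx2 _ u (Finset.mem_insert_of_mem hu)]
            ring
        · funext τ y
          show SEQ_f F o X.X v x τ (X.ρ v y) = - SEQ_f F o X.X v x τ y
          rw [SEQ_f_apply, SEQ_f_apply]
          split_ifs with h
          · rw [neg_zero]
          · rw [hx2 _ v (Finset.mem_insert_self _ _)]
            ring
      · rintro z ⟨⟨hz1, hz2⟩, hz3⟩
        have hz3' : ∀ τ y, z τ (X.ρ v y) = - z τ y := fun τ y => by
          have := congrFun (congrFun hz3 τ) y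
          exact this
        refine ⟨fun σ y => if v ∈ σ then
          ((sg o v (σ.erase v) : ℤ) : F) * z (σ.erase v) y else 0, ⟨fun σ hσ => ?_,
          fun σ u hu y => ?_⟩, ?_⟩
        · have hvσ : v ∈ σ := by
            by_contra h
            apply hσ
            funext y
            simp only [if_neg h]
            rfl
          have h3 : z (σ.erase v) ≠ 0 := by
            intro h
            apply hσ
            funext y
            simp only [if_pos hvσ, h]
            simp
          obtain ⟨h4, h5, h6⟩ := hz1 _ h3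
          refine ⟨?_, fun u hu => ?_, fun a ha b hb hab => ?_⟩
          · have := Finset.card_erase_add_one hvσ
            omega
          · by_cases huv : u = v
            · exact Or.inl huv
            · exact Or.inr (h5 u (Finset.mem_erase.2 ⟨huv, hu⟩)).1
          · by_cases hav : a = v
            · have hbv : b ≠ v := fun h => hab (hav.trans h.symm)
              rw [hav]
              exact hsym _ _ (h5 b (Finset.mem_erase.2 ⟨hbv, hb⟩)).2.2
            · by_cases hbv : b = v
              · rw [hbv]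
                exact (h5 a (Finset.mem_erase.2 ⟨hav, ha⟩)).2.2
              · exact h6 a (Finset.mem_erase.2 ⟨hav, ha⟩) b (Finset.mem_erase.2 ⟨hbv, hb⟩) hab
        · show (if v ∈ σ then ((sg o v (σ.erase v) : ℤ) : F) * z (σ.erase v) (X.ρ u y) else 0) =
            - (if v ∈ σ then ((sg o v (σ.erase v) : ℤ) : F) * z (σ.erase v) y else 0)
          split_ifs with h
          · by_cases huv : u = v
            · rw [huv, hz3']
              ring
            · rw [hz2 _ u (Finset.mem_erase.2 ⟨huv, hu⟩)]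
              ring
          · rw [neg_zero]
        · funext τ y
          rw [SEQ_f_apply]
          by_cases h : v ∈ τ
          · have : z τ = 0 := by
              by_contra h'
              exact ((hz1 _ h').2.1 v h).2.1 rfl
            rw [if_pos h, this]; rfl
          · rw [if_neg h, if_pos (Finset.mem_insert_self v τ), Finset.erase_insert h,
              ← mul_assoc, SEQ_sgsq, one_mul])
    (fun x hx => SEQ_bd_zero F o X.X x hx) (fun x hx => SEQ_bd_zero F o X.X x hx)
    (fun x hx => SEQ_bd_zero F o X.X x hx.1)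
    (by
      apply le_antisymm
      · rintro x ⟨hx1, hx2⟩
        refine ⟨fun σ hσ => ⟨(hx1 σ hσ).1, fun u hu => ?_, (hx1 σ hσ).2.2⟩, hx2⟩
        have := (hx1 σ hσ).1
        rw [Finset.card_eq_zero] at this
        rw [this] at hu
        exact absurd hu (Finset.notMem_empty _)
      · rintro x ⟨hx1, hx2⟩
        exact ⟨fun σ hσ => ⟨(hx1 σ hσ).1, fun u hu => Or.inr ((hx1 σ hσ).2.1 u hu),
          (hx1 σ hσ).2.2⟩, hx2⟩) k
  have htwo := SEQ_two F h2 X o A v k
  simp only at key
  obtain ⟨k1, k2, k3, k4⟩ := key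
  unfold hh at htwo ⊢
  refine ⟨k1, ?_, ?_, ?_⟩ <;> omega

end Pool.LU
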