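import Pool.Agent.H81.LU.YStmts

/-!
Project LU, part Y, module GEN: two models of isomorphic sets with action have the same homology.
-/

set_option autoImplicit false

open scoped BigOperators Topology
open Filter Pool.H3.L2

noncomputable section

namespace Pool.LU

namespace Gen

section

variable {K : Type} [CommRing K] (A B : BCx K) (L : (A.S → K) ≃ₗ[K] (B.S → K))
  (hdeg : ∀ v k, (∀ s, A.deg s ≠ k → v s = 0) ↔ (∀ s, B.deg s ≠ k → L v s = 0))
  (hD : ∀ v, L (Matrix.vecMul v A.D) = Matrix.vecMul (L v) B.D) (k : ℕ)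

include hdeg hD in
theorem map_Zk : (A.Zk k).map (L : (A.S → K) →ₗ[K] (B.S → K)) = B.Zk k := by
  ext x
  constructor
  · rintro ⟨v, ⟨hv1, hv2⟩, rfl⟩
    refine ⟨(hdeg v k).1 hv1, ?_⟩
    show Matrix.vecMul (L v) B.D = 0
    rw [← hD, hv2, map_zero]
  · rintro ⟨hx1, hx2⟩
    refine ⟨L.symm x, ⟨(hdeg _ k).2 ?_, ?_⟩, L.apply_symm_apply x⟩
    · rw [L.apply_symm_apply]
      exact hx1
    · apply L.injective
      rw [hD, L.apply_symm_apply, hx2, map_zero]

include hdeg hD in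
theorem map_Bk : (A.Bk k).map (L : (A.S → K) →ₗ[K] (B.S → K)) = B.Bk k := by
  ext x
  constructor
  · rintro ⟨_, ⟨w, hw, rfl⟩, rfl⟩
    exact ⟨L w, (hdeg w (k + 1)).1 hw, (hD w).symm⟩
  · rintro ⟨w, hw, rfl⟩
    refine ⟨_, ⟨L.symm w, (hdeg _ (k + 1)).2 ?_, rfl⟩, ?_⟩
    · rw [L.apply_symm_apply]
      exact hw
    · show L _ = _
      rw [hD, L.apply_symm_apply]

include hdeg hD in
theorem hk_equiv : Nonempty (A.Hk k ≃ₗ[K] B.Hk k) := by
  have hZ := map_Zk A B L hdeg hD k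
  have hB := map_Bk A B L hdeg hD k
  let f : ↥(A.Zk k) ≃ₗ[K] ↥(B.Zk k) :=
    (Submodule.equivMapOfInjective (L : (A.S → K) →ₗ[K] (B.S → K)) L.injective (A.Zk k)).trans
      (LinearEquiv.ofEq _ _ hZ)
  have hf : ∀ v, ((f v : _) : B.S → K) = L v.1 := fun v => rfl
  refine ⟨Submodule.Quotient.equiv _ _ f ?_⟩
  ext x
  rw [Submodule.mem_map]
  constructor
  · rintro ⟨v, hv, rfl⟩
    show ((f v : _) : B.S → K) ∈ B.Bk k
    rw [hf, ← hB]
    exact ⟨v.1, hv, rfl⟩
  · intro hx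
    have hx' : (x : B.S → K) ∈ B.Bk k := hx
    rw [← hB] at hx'
    obtain ⟨v, hv, hvx⟩ := hx'
    refine ⟨f.symm x, ?_, f.apply_symm_apply x⟩
    show ((f.symm x : _) : A.S → K) ∈ A.Bk k
    have h1 : ((f.symm x : _) : A.S → K) = v := by
      apply L.injective
      rw [← hf, f.apply_symm_apply]
      exact hvx.symm
    rw [h1]
    exact hv

end

/-- transport along a bijection -/
def tr (F : Type) [CommRing F] (V : Type) {X Y : Type} (e : X ≃ Y) :
    (Finset V → X → F) ≃ₗ[F] (Finset V → Y → F) where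
  toFun x := fun σ y => x σ (e.symm y)
  map_add' _ _ := rfl
  map_smul' _ _ := rfl
  invFun x := fun σ y => x σ (e y)
  left_inv x := by
    funext σ y
    simp
  right_inv x := by
    funext σ y
    simp

section

variable {V : Type} [Fintype V] [DecidableEq V] {adj : V → V → Prop} {o : V → ℕ}
  {X Y : Type} {ρ : V → X → X} {ρ' : V → Y → Y} (e : X ≃ Y) (he : ∀ v x, e (ρ v x) = ρ' v (e x))
  (F : Type) [CommRing F]

omit [Fintype V] [DecidableEq V] in
theorem tr_ne (x : Finset V → X → F) (σ : Finset V) : tr F V e x σ ≠ 0 ↔ x σ ≠ 0 := by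
  rw [not_iff_not]
  constructor
  · intro h
    funext z
    have h1 := congrFun h (e z)
    have h2 : tr F V e x σ (e z) = x σ (e.symm (e z)) := rfl
    rw [h2, e.symm_apply_apply] at h1
    exact h1
  · intro h
    funext z
    exact congrFun h (e.symm z)

include he in
theorem allCh_tr (x : Finset V → X → F) : AllCh adj ρ' (tr F V e x) ↔ AllCh adj ρ x := by
  have he' : ∀ v y, e.symm (ρ' v y) = ρ v (e.symm y) := by
    intro v y
    apply e.injective
    rw [e.apply_symm_apply, he, e.apply_symm_apply]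
  unfold AllCh
  refine and_congr ?_ ?_
  · exact forall_congr' fun σ => by rw [tr_ne e F x σ]
  · refine forall_congr' fun σ => forall_congr' fun v => forall_congr' fun _ => ?_
    constructor
    · intro h z
      have h1 := h (e z)
      have h2 : tr F V e x σ (ρ' v (e z)) = x σ (e.symm (ρ' v (e z))) := rfl
      have h3 : tr F V e x σ (e z) = x σ (e.symm (e z)) := rfl
      rw [h2, h3, he', e.symm_apply_apply] at h1
      exact h1
    · intro h y
      show x σ (e.symm (ρ' v y)) = - x σ (e.symm y)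
      rw [he']
      exact h _

theorem bd_tr (x : Finset V → X → F) : bd F o Y (tr F V e x) = tr F V e (bd F o X x) := rfl

include he in
theorem exists_L (A B : BCx F) (Φ : (A.S → F) →ₗ[F] (Finset V → X → F))
    (Φinj : Function.Injective Φ) (Φr : ∀ x, x ∈ LinearMap.range Φ ↔ AllCh adj ρ x)
    (Φdeg : ∀ v k, (∀ s : A.S, A.deg s ≠ k → v s = 0) ↔ ∀ σ, Φ v σ ≠ 0 → σ.card = k)
    (Φbd : ∀ v, Φ (Matrix.vecMul v A.D) = bd F o X (Φ v))
    (Ψ : (B.S → F) →ₗ[F] (Finset V → Y → F))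
    (Ψinj : Function.Injective Ψ) (Ψr : ∀ x, x ∈ LinearMap.range Ψ ↔ AllCh adj ρ' x)
    (Ψdeg : ∀ v k, (∀ s : B.S, B.deg s ≠ k → v s = 0) ↔ ∀ σ, Ψ v σ ≠ 0 → σ.card = k)
    (Ψbd : ∀ v, Ψ (Matrix.vecMul v B.D) = bd F o Y (Ψ v)) (k : ℕ) :
    Nonempty (A.Hk k ≃ₗ[F] B.Hk k) := by
  have hr : (LinearMap.range Φ).map (tr F V e : (Finset V → X → F) →ₗ[F] (Finset V → Y → F)) =
      LinearMap.range Ψ := by
    ext y
    rw [Ψr]
    constructor
    · rintro ⟨x, hx, rfl⟩
      exact (allCh_tr e he F x).2 ((Φr x).1 hx)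
    · intro hy
      refine ⟨(tr F V e).symm y, (Φr _).2 ((allCh_tr e he F _).1 ?_), (tr F V e).apply_symm_apply y⟩
      rw [(tr F V e).apply_symm_apply]
      exact hy
  let L : (A.S → F) ≃ₗ[F] (B.S → F) :=
    (LinearEquiv.ofInjective Φ Φinj).trans (((tr F V e).submoduleMap (LinearMap.range Φ)).trans
      ((LinearEquiv.ofEq _ _ hr).trans (LinearEquiv.ofInjective Ψ Ψinj).symm))
  have hL : ∀ v, Ψ (L v) = tr F V e (Φ v) := by
    intro v
    have h1 : ∀ w : ↥(LinearMap.range Ψ), Ψ ((LinearEquiv.ofInjective Ψ Ψinj).symm w) = w.1 := by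
      intro w
      exact congrArg Subtype.val ((LinearEquiv.ofInjective Ψ Ψinj).apply_symm_apply w)
    exact h1 _
  refine hk_equiv A B L ?_ ?_ k
  · intro v j
    rw [Φdeg v j, Ψdeg (L v) j]
    refine forall_congr' fun σ => ?_
    rw [hL, tr_ne]
  · intro v
    apply Ψinj
    rw [hL, Ψbd, hL, Φbd, bd_tr]

end

/-- isomorphic modules have isomorphic torsion -/
theorem card_torsion {M N : Type} [AddCommGroup M] [AddCommGroup N] (e : M ≃ₗ[ℤ] N) :
    Nat.card (Submodule.torsion ℤ M) = Nat.card (Submodule.torsion ℤ N) := by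
  refine Nat.card_congr ?_
  refine (e.toEquiv.subtypeEquiv fun x => ?_)
  show x ∈ Submodule.torsion ℤ _ ↔ e x ∈ Submodule.torsion ℤ _
  rw [Submodule.mem_torsion_iff, Submodule.mem_torsion_iff]
  constructor
  · rintro ⟨a, ha⟩
    refine ⟨a, ?_⟩
    have := congrArg e ha
    rwa [Submonoid.smul_def, map_smul, map_zero] at this
  · rintro ⟨a, ha⟩
    refine ⟨a, ?_⟩
    apply e.injective
    rw [Submonoid.smul_def, map_smul, map_zero]
    exact ha

end Gen

open Gen in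
/-- GEN -/
theorem gen : GENStmt := by
  intro V _ _ adj o X Y ρ ρ' e he A B hA hB
  refine ⟨fun k => ?_, fun K _ k => ?_⟩
  · obtain ⟨Φ, Φinj, Φr, Φdeg, Φbd⟩ := hA ℤ
    obtain ⟨Ψ, Ψinj, Ψr, Ψdeg, Ψbd⟩ := hB ℤ
    have eA : A.D.map (Int.castRingHom ℤ) = A.D := by
      ext s t
      simp
    have eB : B.D.map (Int.castRingHom ℤ) = B.D := by
      ext s t
      simp
    obtain ⟨f⟩ := exists_L e he ℤ A B Φ Φinj Φr Φdeg (fun v => by rw [← Φbd, eA]) Ψ Ψinj Ψr Ψdeg
      (fun v => by rw [← Ψbd, eB]) k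
    exact card_torsion f
  · obtain ⟨Φ, Φinj, Φr, Φdeg, Φbd⟩ := hA K
    obtain ⟨Ψ, Ψinj, Ψr, Ψdeg, Ψbd⟩ := hB K
    obtain ⟨f⟩ := exists_L e he K (A.map (Int.castRingHom K)) (B.map (Int.castRingHom K))
      Φ Φinj Φr Φdeg Φbd Ψ Ψinj Ψr Ψdeg Ψbd k
    exact f.finrank_eq

end Pool.LU
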